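import Pool.Agent.H563.T4.Final
import Pool.Graph.R_pool_sql_team_seeded_64922ed1.Results.MP_f6c7cf_nt.BeyondLogSquared

/-!
# MP_f6c7cf_nt: all four variables in one thin set

For every `ε > 0` there is a set `X` of natural numbers with `O(t ^ (1/2 + ε))` elements up to `t` such that
every large odd `n` has many quadruples `(x, y, z, w)` with all four coordinates in `X` and
`n = x² + y² + z² + 4 w²`, for which every prime factor `q ≤ c (log n)²` of `2^x + 2^y + 2^z + 1` is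
exceptional in the sense of the starting result BeyondLogSquared. The exponent `1/2` is optimal.

The proof. By the starting result there are at least `n ^ (1 - ε/8)` quadruples with this property. For
the odd `n` between `4 ^ (m - 1)` and `4 ^ m` the four coordinates are restricted one after the other to
sets which contain one element of each of `k` blocks of length `L`, `k L = 2 ^ m`,
`k = 2 ^ (m (1/2 + ε))`; the elements are chosen by the method of conditional expectations, with lower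
bounds for the number of the remaining quadruples of all `n`, and upper bounds for the number of the
remaining quadruples of all `n` with a given third or fourth coordinate.
-/

set_option autoImplicit false

namespace Pool.Agent.Results.MP_f6c7cf_nt.ThinSetOfVariables

open Pool.Agent.H563.T4

theorem result :
    (∀ ε : ℝ, 0 < ε → ∃ X : Set ℕ,
      (∃ C : ℝ, 0 < C ∧ ∀ t : ℕ, 1 ≤ t → ((X ∩ Set.Icc 1 t).ncard : ℝ) ≤ C * (t : ℝ) ^ (1 / 2 + ε)) ∧
      ∃ c : ℝ, 0 < c ∧ ∃ η : ℝ, 0 < η ∧ ∃ n₀ : ℕ, ∀ n : ℕ, n₀ ≤ n → Odd n →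
        ∃ S : Finset (ℕ × ℕ × ℕ × ℕ), (n : ℝ) ^ η ≤ (S.card : ℝ) ∧
          ∀ x y z w : ℕ, (x, y, z, w) ∈ S → (x ∈ X ∧ y ∈ X ∧ z ∈ X ∧ w ∈ X) ∧
            n = x ^ 2 + y ^ 2 + z ^ 2 + 4 * w ^ 2 ∧
            ∀ q : ℕ, q.Prime → q ∣ 2 ^ x + 2 ^ y + 2 ^ z + 1 → (q : ℝ) ≤ c * Real.log n ^ 2 →
              q ≠ 2 ∧
              ((∃ l : ℕ, l.Prime ∧ 5 ≤ l ∧ l ^ 2 ∣ orderOf (2 : ZMod q) ∧
                  (l : ℤ) ∣ (3 * n - 2) * (9 * n - 2)) ∨
                (¬ 3 ∣ n ∧ n % 32 ≠ 13 ∧ q ≠ 7 ∧ 3 ∣ orderOf (2 : ZMod q)))) ∧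
    (∀ X : Set ℕ, (∃ n₁ : ℕ, ∀ n : ℕ, n₁ ≤ n → Odd n →
        ∃ x ∈ X, ∃ y ∈ X, ∃ z ∈ X, ∃ w ∈ X, n = x ^ 2 + y ^ 2 + z ^ 2 + 4 * w ^ 2) →
      ∃ t₀ : ℕ, ∀ t : ℕ, t₀ ≤ t → (t : ℝ) ^ (1 / 2 : ℝ) / 2 ≤ ((X ∩ Set.Icc 1 t).ncard : ℝ)) := by
  have e4 : ∀ w : ℕ, (2 * w) ^ 2 = 4 * w ^ 2 := fun w => by ring
  constructor
  · intro ε hε
    set e : ℝ := min (ε / 2) (1 / 12) with he
    have he0 : 0 < e := by rw [he]; positivity
    have he1 : e ≤ 1 / 12 := min_le_right _ _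
    have he2 : e ≤ ε / 2 := min_le_left _ _
    obtain ⟨c, hc, n₀, h⟩ := Pool.Agent.Results.MP_f6c7cf_nt.BeyondLogSquared.result (e / 8) (by positivity)
    obtain ⟨X, ⟨C, hC, hX⟩, n₁, hn⟩ := thin 2 (by norm_num)
      (fun n p => ∀ q : ℕ, q.Prime → q ∣ 2 ^ p.1 + 2 ^ p.2.1 + 2 ^ p.2.2.1 + 1 → (q : ℝ) ≤ c * Real.log n ^ 2 →
              q ≠ 2 ∧
              ((∃ l : ℕ, l.Prime ∧ 5 ≤ l ∧ l ^ 2 ∣ orderOf (2 : ZMod q) ∧
                  (l : ℤ) ∣ (3 * n - 2) * (9 * n - 2)) ∨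
                (¬ 3 ∣ n ∧ n % 32 ≠ 13 ∧ q ≠ 7 ∧ 3 ∣ orderOf (2 : ZMod q)))) (fun n => Odd n) e he0 he1 n₀ (by
        intro n hn hodd
        obtain ⟨S, hS1, hS2⟩ := h n hn hodd
        refine ⟨S, hS1, ?_⟩
        rintro ⟨x, y, z, w⟩ hq
        obtain ⟨h1, h2⟩ := hS2 x y z w hq
        exact ⟨by simp only; rw [e4]; exact h1, h2⟩)
    refine ⟨X, ⟨C, hC, ?_⟩, c, hc, e, he0, n₁, ?_⟩
    · intro t ht
      refine (hX t ht).trans ?_
      have htr : (1 : ℝ) ≤ t := by exact_mod_cast ht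
      have := Real.rpow_le_rpow_of_exponent_le htr (show 1 / 2 + 2 * e ≤ 1 / 2 + ε by linarith)
      gcongr
    · intro n hn' hodd
      obtain ⟨S, hS1, hS2⟩ := hn n hn' hodd
      refine ⟨S, hS1, ?_⟩
      intro x y z w hq
      obtain ⟨h1, h2, h3⟩ := hS2 (x, y, z, w) hq
      simp only at h2
      rw [e4] at h2
      exact ⟨h1, h2, h3⟩
  · rintro X ⟨n₁, h⟩
    exact lower 2 X (by norm_num) n₁ (by
      intro n hn hodd
      obtain ⟨x, hx, y, hy, z, hz, w, hw, e⟩ := h n hn hodd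
      exact ⟨x, hx, y, hy, z, hz, w, hw, by rw [e4]; exact e⟩)

end Pool.Agent.Results.MP_f6c7cf_nt.ThinSetOfVariables
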